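import Mathlib
import Pool.Agent.MP_1ea83a_an.Main

/-!
Q1 of MP_1ea83a_an fails: on the unit ball of complex dimension two, for `φ = log |z₀|`,
the residual second term equals `φ` itself and its residual function is negative everywhere.
-/

set_option autoImplicit false

open Pool.Agent.MP_1ea83a_an

theorem Pool.Agent.Results.MP_1ea83a_an.BallCounterexample.result :
    ∃ (D : Set (Cn 2)) (φ : Cn 2 → EReal),
      D = Metric.ball 0 1 ∧ (φ = fun z => ENNReal.log ‖z 0‖ₑ) ∧
      IsOpen D ∧ IsConnected D ∧ Bornology.IsBounded D ∧ IsBRegular D ∧ IsNegPSH D φ ∧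
        (∀ z ∈ D, secondTerm D φ z = φ z) ∧ ∀ z ∈ D, residual D (secondTerm D φ) z < 0 :=
  ⟨B2, phi, rfl, rfl, Metric.isOpen_ball, Metric.isConnected_ball one_pos, Metric.isBounded_ball,
    ball_bregular, phi_negPSH, fun _ hz => (secondTerm_eq hz).symm,
    fun _ hz => residual_secondTerm_neg hz⟩
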